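import Pool.Agent.X178.FD.Defs

/-!
# The lower bound for the total weight
-/

namespace Pool.Agent.X178.FD

open Finset Classical

/-- a singleton as an element of the poset -/
def sg {n k : ℕ} (a : Fin n) : Q n k := ⟨{a}, Or.inl (card_singleton a)⟩

theorem levels_nat {n : ℕ} (k m : ℕ) (hk : 1 ≤ k) (l : Fin n → Fin (m + 1)) :
    ∑ a, ((univ.filter (fun i => l i < l a)).card : ℝ) ^ k ≤ M k m * (n : ℝ) ^ (k + 1) := by
  let p : ℕ → ℝ := fun j => ((univ.filter (fun a => (l a).val = j)).card : ℝ)
  have hs : ∀ j, ∑ i ∈ range j, p i = ((univ.filter (fun i => (l i).val < j)).card : ℝ) := by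
    intro j
    have h1 := card_eq_sum_card_fiberwise (f := fun i => (l i).val)
      (s := univ.filter (fun i => (l i).val < j)) (t := range j)
      (by intro x hx; exact mem_coe.2 (mem_range.2 (mem_filter.1 (mem_coe.1 hx)).2))
    rw [h1]
    push_cast
    refine sum_congr rfl fun i hi => ?_
    simp only [p]
    congr 2
    ext x
    simp only [mem_filter, mem_univ, true_and]
    have := mem_range.1 hi
    constructor
    · intro h; exact ⟨by omega, h⟩
    · rintro ⟨-, h⟩; exact h
  have h2 := levels k hk p (fun j => Nat.cast_nonneg _) m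
  have h3 : ∑ j ∈ range (m + 1), p j = n := by
    rw [hs]
    have : univ.filter (fun i => (l i).val < m + 1) = univ :=
      filter_true_of_mem fun i _ => (l i).2
    rw [this, card_univ, Fintype.card_fin]
  rw [h3] at h2
  refine le_trans (le_of_eq ?_) h2
  rw [← sum_fiberwise_of_maps_to (s := univ) (t := range (m + 1)) (g := fun a => (l a).val)
    (fun a _ => mem_range.2 (l a).2)]
  refine sum_congr rfl fun j _ => ?_
  rw [hs]
  calc _ = ∑ _a ∈ univ.filter (fun a => (l a).val = j),
        ((univ.filter (fun i => (l i).val < j)).card : ℝ) ^ k := by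
        refine sum_congr rfl fun a ha => ?_
        have ha' := (mem_filter.1 ha).2
        congr 3
        ext i
        simp only [mem_filter, mem_univ, true_and]
        rw [Fin.lt_def, ha']
    _ = _ := by rw [sum_const, nsmul_eq_mul]

theorem low (n k m : ℕ) (hk : 1 ≤ k) (w : (Q n k → Fin (m + 1)) → ℝ)
    (hw : Realiser n k (m + 1) w) :
    (n : ℝ) * ((n - 1).descFactorial k : ℝ) ≤ (∑ f, w f) * (M k m * (n : ℝ) ^ (k + 1)) := by
  let R : Fin n → Finset (Q n k) := fun a => univ.filter (fun y => y.1.card = k ∧ a ∉ y.1)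
  have hR : ∀ a, (R a).card = (n - 1).choose k := by
    intro a
    have h1 : (R a).card = (powersetCard k (univ.erase a)).card := by
      refine card_bij (fun y _ => y.1) ?_ ?_ ?_
      · intro y hy
        have hy' := (mem_filter.1 hy).2
        exact mem_powersetCard.2 ⟨fun z hz => mem_erase.2 ⟨fun h => hy'.2 (h ▸ hz), mem_univ _⟩,
          hy'.1⟩
      · intro y _ z _ h
        exact Subtype.ext h
      · intro s hs
        obtain ⟨h1, h2⟩ := mem_powersetCard.1 hs
        exact ⟨⟨s, Or.inr h2⟩, mem_filter.2 ⟨mem_univ _, h2, fun h =>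
          (mem_erase.1 (h1 h)).1 rfl⟩, rfl⟩
    rw [h1, card_powersetCard, card_erase_of_mem (mem_univ a), card_univ, Fintype.card_fin]
  have hN : ∀ f : Q n k → Fin (m + 1), Monotone f → ∀ a,
      (((R a).filter (fun y => f y < f (sg a))).card : ℝ) * k.factorial ≤
        ((univ.filter (fun i => f (sg i) < f (sg a))).card : ℝ) ^ k := by
    intro f hf a
    have h1 : ((R a).filter (fun y => f y < f (sg a))).card ≤
        (powersetCard k (univ.filter (fun i => f (sg i) < f (sg a)))).card := by
      refine card_le_card_of_injOn (fun y => y.1) (fun y hy => ?_) ?_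
      · have hy1 := mem_filter.1 (mem_coe.1 hy)
        have hy2 := (mem_filter.1 hy1.1).2
        refine mem_coe.2 (mem_powersetCard.2 ⟨fun i hi => mem_filter.2 ⟨mem_univ _, ?_⟩, hy2.1⟩)
        refine lt_of_le_of_lt (hf ?_) hy1.2
        change ({i} : Finset (Fin n)) ≤ y.1
        exact singleton_subset_iff.2 hi
      · intro y _ z _ h
        exact Subtype.ext h
    rw [card_powersetCard] at h1
    have h2 := Nat.descFactorial_le_pow (univ.filter (fun i => f (sg i) < f (sg a))).card k
    rw [Nat.descFactorial_eq_factorial_mul_choose] at h2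
    have h3 : ((R a).filter (fun y => f y < f (sg a))).card * k.factorial ≤
        (univ.filter (fun i => f (sg i) < f (sg a))).card ^ k :=
      le_trans (by rw [mul_comm]; exact Nat.mul_le_mul_left _ h1) h2
    exact_mod_cast h3
  have h1 : ∑ a : Fin n, ((R a).card : ℝ) ≤
      ∑ f, w f * ∑ a, (((R a).filter (fun y => f y < f (sg a))).card : ℝ) := by
    calc ∑ a : Fin n, ((R a).card : ℝ) = ∑ a : Fin n, ∑ _y ∈ R a, (1 : ℝ) := by
          refine sum_congr rfl fun a _ => ?_
          rw [sum_const, nsmul_eq_mul, mul_one]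
      _ ≤ ∑ a : Fin n, ∑ y ∈ R a, ∑ f : Q n k → Fin (m + 1),
            (if f y < f (sg a) then w f else 0) := by
          refine sum_le_sum fun a _ => sum_le_sum fun y hy => hw.cover y (sg a) ?_
          intro h
          have h' : ({a} : Finset (Fin n)) ⊆ y.1 := h
          exact (mem_filter.1 hy).2.2 (singleton_subset_iff.1 h')
      _ = _ := by
          have e1 : ∀ a : Fin n, ∑ y ∈ R a, ∑ f : Q n k → Fin (m + 1),
              (if f y < f (sg a) then w f else 0) =
              ∑ f : Q n k → Fin (m + 1),
                w f * (((R a).filter (fun y => f y < f (sg a))).card : ℝ) := by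
            intro a
            rw [sum_comm]
            refine sum_congr rfl fun f _ => ?_
            rw [← sum_filter, sum_const, nsmul_eq_mul, mul_comm]
          rw [sum_congr rfl fun a _ => e1 a, sum_comm]
          refine sum_congr rfl fun f _ => ?_
          rw [mul_sum]
  have h2 : ∑ a : Fin n, ((R a).card : ℝ) = n * ((n - 1).choose k : ℝ) := by
    rw [sum_congr rfl fun a _ => by rw [hR a], sum_const, card_univ, Fintype.card_fin,
      nsmul_eq_mul]
  rw [h2] at h1
  have h3 : (n : ℝ) * ((n - 1).descFactorial k : ℝ) =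
      (n * ((n - 1).choose k : ℝ)) * k.factorial := by
    rw [Nat.descFactorial_eq_factorial_mul_choose]
    push_cast
    ring
  rw [h3]
  have hfac : (0 : ℝ) ≤ (k.factorial : ℝ) := Nat.cast_nonneg _
  calc _ ≤ (∑ f, w f * ∑ a, (((R a).filter (fun y => f y < f (sg a))).card : ℝ)) *
        k.factorial := mul_le_mul_of_nonneg_right h1 hfac
    _ = ∑ f, w f * ∑ a, (((R a).filter (fun y => f y < f (sg a))).card : ℝ) * k.factorial := by
        rw [sum_mul]
        refine sum_congr rfl fun f _ => ?_
        rw [mul_assoc, sum_mul]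
    _ ≤ ∑ f, w f * (M k m * (n : ℝ) ^ (k + 1)) := by
        refine sum_le_sum fun f _ => ?_
        by_cases hf : w f = 0
        · simp [hf]
        · refine mul_le_mul_of_nonneg_left ?_ (hw.nonneg f)
          exact (sum_le_sum fun a _ => hN f (hw.mono f hf) a).trans
            (levels_nat k m hk (fun i => f (sg i)))
    _ = _ := by rw [sum_mul]

end Pool.Agent.X178.FD
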