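import Mathlib

/-!
# A weighted Motzkin–Straus shift
-/

namespace Pool.Agent.X178.FD

open Finset Classical

/-- the quadratic objective -/
noncomputable def J {ι : Type} [Fintype ι] (A : ι → ι → ℝ) (h : ι → ℝ) (μ : ι → ℝ) : ℝ :=
  ∑ i, ∑ j, μ i * μ j * A i j + ∑ i, h i * μ i

theorem J_shift {ι : Type} [Fintype ι] (A : ι → ι → ℝ) (hA : ∀ i j, A i j = A j i)
    (hd : ∀ i, A i i = 0) (h : ι → ℝ) (μ : ι → ℝ) (i j : ι) (hij : A i j = 0) (s : ℝ) :
    J A h (fun k => μ k + s * ((if k = i then 1 else 0) - (if k = j then 1 else 0))) =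
      J A h μ + s * (2 * ∑ k, μ k * (A k i - A k j) + (h i - h j)) := by
  unfold J
  have e1 : ∀ k l : ι, (μ k + s * ((if k = i then 1 else 0) - (if k = j then 1 else 0))) *
      (μ l + s * ((if l = i then 1 else 0) - (if l = j then 1 else 0))) * A k l =
      μ k * μ l * A k l
      + s * (μ k * ((if l = i then A k l else 0) - (if l = j then A k l else 0)))
      + s * (μ l * ((if k = i then A k l else 0) - (if k = j then A k l else 0)))
      + s ^ 2 * (((if k = i then (if l = i then A k l else 0) else 0)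
        - (if k = i then (if l = j then A k l else 0) else 0))
        - ((if k = j then (if l = i then A k l else 0) else 0)
        - (if k = j then (if l = j then A k l else 0) else 0))) := by
    intro k l
    split_ifs <;> ring
  have e2 : ∀ k : ι, h k * (μ k + s * ((if k = i then 1 else 0) - (if k = j then 1 else 0))) =
      h k * μ k + s * ((if k = i then h k else 0) - (if k = j then h k else 0)) := by
    intro k
    split_ifs <;> ring
  simp_rw [e1, e2]
  simp only [sum_add_distrib, ← mul_sum, sum_sub_distrib, sum_ite_eq', mem_univ, if_true]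
  have hji : A j i = 0 := (hA j i).trans hij
  have e3 : ∑ k, ∑ l, μ l * ((if k = i then A k l else 0) - (if k = j then A k l else 0)) =
      ∑ l, μ l * (A l i - A l j) := by
    rw [sum_comm]
    refine sum_congr rfl fun l _ => ?_
    rw [← mul_sum, sum_sub_distrib]
    simp [hA i l, hA j l]
  have e4 : ∀ a b : ι, (∑ x, ∑ y, if x = a then (if y = b then A x y else 0) else 0) = A a b := by
    intro a b
    rw [sum_eq_single a]
    · simp
    · intro x _ hx
      simp [hx]
    · intro h
      exact absurd (mem_univ _) h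
  rw [e3, e4, e4, e4, e4, hd, hd, hij, hji]
  ring

/-- shifting to a clique -/
theorem exists_clique {ι : Type} [Fintype ι] (A : ι → ι → ℝ) (hA : ∀ i j, A i j = A j i)
    (hd : ∀ i, A i i = 0) (h : ι → ℝ) : ∀ (N : ℕ) (μ : ι → ℝ), (∀ i, 0 ≤ μ i) →
    (univ.filter (fun i => μ i ≠ 0)).card ≤ N →
    ∃ ν : ι → ℝ, (∀ i, 0 ≤ ν i) ∧ ∑ i, ν i = ∑ i, μ i ∧ J A h μ ≤ J A h ν ∧
      ∀ i j, ν i ≠ 0 → ν j ≠ 0 → i ≠ j → A i j ≠ 0 := by
  intro N
  induction N with
  | zero =>
    intro μ hμ hN
    refine ⟨μ, hμ, rfl, le_rfl, fun i j hi _ _ => ?_⟩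
    have h1 := card_eq_zero.1 (Nat.le_zero.1 hN)
    have h2 : i ∈ univ.filter (fun i => μ i ≠ 0) := mem_filter.2 ⟨mem_univ _, hi⟩
    rw [h1] at h2
    simp at h2
  | succ N ih =>
    intro μ hμ hN
    by_cases hcl : ∀ i j, μ i ≠ 0 → μ j ≠ 0 → i ≠ j → A i j ≠ 0
    · exact ⟨μ, hμ, rfl, le_rfl, hcl⟩
    · push Not at hcl
      obtain ⟨i, j, hi, hj, hne, hij⟩ := hcl
      have main : ∀ i j : ι, μ i ≠ 0 → μ j ≠ 0 → i ≠ j → A i j = 0 →
          0 ≤ 2 * ∑ k, μ k * (A k i - A k j) + (h i - h j) →
          ∃ ν : ι → ℝ, (∀ i, 0 ≤ ν i) ∧ ∑ i, ν i = ∑ i, μ i ∧ J A h μ ≤ J A h ν ∧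
            ∀ i j, ν i ≠ 0 → ν j ≠ 0 → i ≠ j → A i j ≠ 0 := by
        intro i j hi hj hne hij hL
        have hs := J_shift A hA hd h μ i j hij (μ j)
        set μ' : ι → ℝ := fun k => μ k + μ j * ((if k = i then 1 else 0) -
          (if k = j then 1 else 0)) with hμ'
        have h1 : ∀ k, 0 ≤ μ' k := by
          intro k
          simp only [hμ']
          by_cases hki : k = i
          · subst hki
            rw [if_pos rfl, if_neg hne]
            have := hμ k
            have := hμ j
            linarith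
          · rw [if_neg hki]
            by_cases hkj : k = j
            · subst hkj
              rw [if_pos rfl]
              linarith
            · rw [if_neg hkj]
              have := hμ k
              linarith
        have h2 : ∑ k, μ' k = ∑ k, μ k := by
          simp only [hμ', sum_add_distrib, ← mul_sum, sum_sub_distrib, sum_ite_eq', mem_univ,
            if_true, sub_self, mul_zero, add_zero]
        have h3 : (univ.filter (fun k => μ' k ≠ 0)).card ≤ N := by
          have h4 : univ.filter (fun k => μ' k ≠ 0) ⊆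
              (univ.filter (fun k => μ k ≠ 0)).erase j := by
            intro k hk
            have hk' := (mem_filter.1 hk).2
            rw [mem_erase, mem_filter]
            by_cases hkj : k = j
            · exfalso
              apply hk'
              simp only [hμ']
              rw [if_pos hkj, if_neg (fun e => hne (e.symm.trans hkj)), hkj]
              ring
            · refine ⟨hkj, mem_univ _, ?_⟩
              by_cases hki : k = i
              · rw [hki]
                exact hi
              · intro h0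
                apply hk'
                simp only [hμ']
                rw [if_neg hki, if_neg hkj, h0]
                ring
          have h5 := card_le_card h4
          have hjm : j ∈ univ.filter (fun k => μ k ≠ 0) := mem_filter.2 ⟨mem_univ _, hj⟩
          rw [card_erase_of_mem hjm] at h5
          omega
        obtain ⟨ν, ν1, ν2, ν3, ν4⟩ := ih μ' h1 h3
        refine ⟨ν, ν1, ν2.trans h2, le_trans ?_ ν3, ν4⟩
        rw [hs]
        have := mul_nonneg (hμ j) hL
        linarith
      by_cases hL : 0 ≤ 2 * ∑ k, μ k * (A k i - A k j) + (h i - h j)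
      · exact main i j hi hj hne hij hL
      · refine main j i hj hi (Ne.symm hne) ((hA j i).trans hij) ?_
        push Not at hL
        have : ∑ k, μ k * (A k j - A k i) = - ∑ k, μ k * (A k i - A k j) := by
          rw [← sum_neg_distrib]
          exact sum_congr rfl fun k _ => by ring
        rw [this]
        linarith

theorem final_ineq (t m : ℕ) (hm : m < t) (ρ : ℝ)
    (hρe : ((t : ℝ) - 2) * ρ ^ 2 + 2 * ρ = 1 / t) :
    (1 : ℝ) / t ≤ (1 - m * ρ) ^ 2 / (t - m) - m * ρ ^ 2 := by
  have h1 : (0 : ℝ) < (t : ℝ) - m := by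
    have : (m : ℝ) < t := by exact_mod_cast hm
    linarith
  have h2 : (0 : ℝ) ≤ m * (m - 1) := by
    rcases Nat.eq_zero_or_pos m with h | h
    · rw [h]; simp
    · have : (1 : ℝ) ≤ m := by exact_mod_cast h
      nlinarith
  have h3 : (1 - m * ρ) ^ 2 / ((t : ℝ) - m) - m * ρ ^ 2 - 1 / t =
      (m * (m - 1)) * (2 * ρ ^ 2) / ((t : ℝ) - m) := by
    rw [← hρe]
    have ht0 : (t : ℝ) ≠ 0 := by
      have : 0 < t := by omega
      exact_mod_cast this.ne'
    have h4 : (1 : ℝ) = t * (((t : ℝ) - 2) * ρ ^ 2 + 2 * ρ) := by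
      rw [hρe]; field_simp
    field_simp
    nlinarith [h4]
  have h5 : (0 : ℝ) ≤ (m * (m - 1)) * (2 * ρ ^ 2) / ((t : ℝ) - m) := by positivity
  linarith

theorem keyineq (n t : ℕ) (ht : 2 ≤ t) (ρ : ℝ) (hρ : 0 ≤ ρ)
    (hρe : ((t : ℝ) - 2) * ρ ^ 2 + 2 * ρ = 1 / t) (a b : Fin n → Fin t) (hab : ∀ i, a i ≤ b i) :
    ρ * n * ((univ.filter (fun i => a i < b i)).card : ℝ) +
      ((univ.filter (fun q : Fin n × Fin n => b q.1 < a q.2)).card : ℝ) ≤
      (n : ℝ) ^ 2 * ((t - 1) / (2 * t)) := by
  let A : Fin n → Fin n → ℝ := fun i j => if b i < a j ∨ b j < a i then 1 / 2 else 0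
  let h : Fin n → ℝ := fun i => if a i < b i then ρ * n else 0
  have hA : ∀ i j, A i j = A j i := by
    intro i j
    simp only [A]
    by_cases h1 : b i < a j ∨ b j < a i
    · rw [if_pos h1, if_pos h1.symm]
    · rw [if_neg h1, if_neg (fun h => h1 h.symm)]
  have hd : ∀ i, A i i = 0 := by
    intro i
    simp only [A]
    rw [if_neg]
    rintro (h1 | h1)
    · exact absurd (hab i) (not_le.2 h1)
    · exact absurd (hab i) (not_le.2 h1)
  obtain ⟨ν, ν0, νs, νJ, νc⟩ := exists_clique A hA hd h _ (fun _ => 1) (fun _ => zero_le_one) le_rfl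
  have hJ1 : J A h (fun _ => 1) = ρ * n * ((univ.filter (fun i => a i < b i)).card : ℝ) +
      ((univ.filter (fun q : Fin n × Fin n => b q.1 < a q.2)).card : ℝ) := by
    unfold J
    have e1 : ∑ i, h i * 1 = ρ * n * ((univ.filter (fun i => a i < b i)).card : ℝ) := by
      simp only [h, mul_one]
      rw [← sum_filter, sum_const, nsmul_eq_mul, mul_comm]
    have e2 : ∑ i, ∑ j, (if b i < a j then (1 : ℝ) else 0) =
        ((univ.filter (fun q : Fin n × Fin n => b q.1 < a q.2)).card : ℝ) := by
      rw [← sum_product' (f := fun i j => if b i < a j then (1 : ℝ) else 0), univ_product_univ,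
        sum_boole]
    have e3 : ∑ i, ∑ j, (1 : ℝ) * 1 * A i j = ∑ i, ∑ j, (if b i < a j then (1 : ℝ) else 0) := by
      have e4 : ∀ i j, (1 : ℝ) * 1 * A i j = 1 / 2 * (if b i < a j then (1 : ℝ) else 0) +
          1 / 2 * (if b j < a i then (1 : ℝ) else 0) := by
        intro i j
        simp only [A]
        by_cases h1 : b i < a j
        · have h2 : ¬ b j < a i := fun h2 =>
            absurd ((hab i).trans_lt (h1.trans_le ((hab j).trans h2.le))) (lt_irrefl _)
          rw [if_pos (Or.inl h1), if_pos h1, if_neg h2]; norm_num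
        · by_cases h2 : b j < a i
          · rw [if_pos (Or.inr h2), if_neg h1, if_pos h2]; norm_num
          · rw [if_neg (not_or.2 ⟨h1, h2⟩), if_neg h1, if_neg h2]; norm_num
      simp_rw [e4, sum_add_distrib, ← mul_sum]
      rw [sum_comm (f := fun i j => if b j < a i then (1 : ℝ) else 0)]
      ring
    rw [e3, e2, e1]
    ring
  rw [hJ1] at νJ
  refine νJ.trans ?_
  have νs' : ∑ i, ν i = n := by rw [νs]; simp
  set S := univ.filter (fun i => ν i ≠ 0) with hS
  set D := S.filter (fun i => a i < b i) with hD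
  set q := ∑ i, (if a i < b i then ν i else 0) with hq
  have hcard : S.card + D.card ≤ t := by
    have h1 : (S.biUnion (fun i => ({a i, b i} : Finset (Fin t)))).card ≤ t := by
      have := card_le_univ (S.biUnion (fun i => ({a i, b i} : Finset (Fin t))))
      rwa [Fintype.card_fin] at this
    rw [card_biUnion] at h1
    · have h2 : ∑ i ∈ S, ({a i, b i} : Finset (Fin t)).card =
          ∑ i ∈ S, (1 + if a i < b i then 1 else 0) := by
        refine sum_congr rfl fun i _ => ?_
        by_cases h3 : a i < b i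
        · rw [if_pos h3, card_pair h3.ne]
        · rw [if_neg h3, le_antisymm (hab i) (not_lt.1 h3)]
          simp
      rw [h2, sum_add_distrib, sum_boole] at h1
      simpa using h1
    · intro i hi j hj hij
      have h2 := νc i j (mem_filter.1 hi).2 (mem_filter.1 hj).2 hij
      have h3 : b i < a j ∨ b j < a i := by
        by_contra h4
        apply h2
        simp only [A]
        rw [if_neg h4]
      rw [Function.onFun, disjoint_left]
      intro x hx hy
      rw [mem_insert, mem_singleton] at hx hy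
      have hi' := hab i
      have hj' := hab j
      have hx1 : a i ≤ x ∧ x ≤ b i := by
        rcases hx with rfl | rfl
        · exact ⟨le_rfl, hi'⟩
        · exact ⟨hi', le_rfl⟩
      have hy1 : a j ≤ x ∧ x ≤ b j := by
        rcases hy with rfl | rfl
        · exact ⟨le_rfl, hj'⟩
        · exact ⟨hj', le_rfl⟩
      rcases h3 with h3 | h3
      · exact absurd (hx1.2.trans_lt (h3.trans_le hy1.1)) (lt_irrefl _)
      · exact absurd (hy1.2.trans_lt (h3.trans_le hx1.1)) (lt_irrefl _)
  have hDS : D.card ≤ S.card := card_filter_le _ _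
  have hmt : D.card < t := by omega
  have hfin := final_ineq t D.card hmt ρ hρe
  set m := D.card with hm
  have hmt' : (0 : ℝ) < (t : ℝ) - m := by
    have : (m : ℝ) < t := by exact_mod_cast hmt
    linarith
  set u : ℝ := (1 - m * ρ) / (t - m) with hu
  have hu1 : u * ((t : ℝ) - m) = 1 - m * ρ := by rw [hu]; field_simp
  have hsq : (n : ℝ) ^ 2 * (2 * u - ((t : ℝ) - m) * u ^ 2 - m * (2 * u * ρ + ρ ^ 2)) ≤
      ∑ i, ν i ^ 2 - 2 * ρ * n * q := by
    have e1 : ∀ i, (if ν i ≠ 0 then (2 * (n * u) * ν i + 2 * (n * ρ) * (if a i < b i then ν i else 0)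
        - (n : ℝ) ^ 2 * u ^ 2
        - (if a i < b i then (n : ℝ) ^ 2 * (2 * u * ρ + ρ ^ 2) else 0)) else 0) ≤ ν i ^ 2 := by
      intro i
      by_cases h1 : ν i ≠ 0
      · rw [if_pos h1]
        by_cases h2 : a i < b i
        · rw [if_pos h2, if_pos h2]
          nlinarith [sq_nonneg (ν i - n * (u + ρ))]
        · rw [if_neg h2, if_neg h2]
          nlinarith [sq_nonneg (ν i - n * u)]
      · rw [if_neg h1]
        positivity
    have e2 := sum_le_sum fun i (_ : i ∈ univ) => e1 i
    rw [← sum_filter, sum_sub_distrib, sum_sub_distrib, sum_add_distrib, ← mul_sum, ← mul_sum,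
      sum_const, nsmul_eq_mul, ← sum_filter (s := S) (p := fun i => a i < b i)
      (f := fun _ => (n : ℝ) ^ 2 * (2 * u * ρ + ρ ^ 2)), sum_const, nsmul_eq_mul] at e2
    have e3 : ∑ i ∈ S, ν i = n := by
      rw [← νs', hS, sum_filter_ne_zero]
    have e4 : ∑ i ∈ S, (if a i < b i then ν i else 0) = q := by
      rw [hq, hS, sum_filter]
      refine sum_congr rfl fun i _ => ?_
      by_cases h1 : ν i ≠ 0
      · rw [if_pos h1]
      · rw [if_neg h1]
        push Not at h1
        rw [h1]
        simp
    rw [e3, e4] at e2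
    have e5 : (S.card : ℝ) ≤ t - m := by
      have : ((S.card + D.card : ℕ) : ℝ) ≤ t := by exact_mod_cast hcard
      push_cast at this
      linarith
    have e6 : (S.card : ℝ) * ((n : ℝ) ^ 2 * u ^ 2) ≤ (t - m) * ((n : ℝ) ^ 2 * u ^ 2) :=
      mul_le_mul_of_nonneg_right e5 (by positivity)
    nlinarith [e2, e6]
  have hval : 2 * u - ((t : ℝ) - m) * u ^ 2 - m * (2 * u * ρ + ρ ^ 2) =
      (1 - m * ρ) ^ 2 / (t - m) - m * ρ ^ 2 := by
    have : (1 - m * ρ) ^ 2 / ((t : ℝ) - m) = u * (1 - m * ρ) := by
      rw [hu]; ring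
    rw [this]
    linear_combination (-u) * hu1
  rw [hval] at hsq
  have hJ2 : J A h ν ≤ 1 / 2 * ((n : ℝ) ^ 2 - ∑ i, ν i ^ 2) + ρ * n * q := by
    unfold J
    have e1 : ∑ i, h i * ν i = ρ * n * q := by
      rw [hq, mul_sum]
      refine sum_congr rfl fun i _ => ?_
      simp only [h]
      split_ifs
      · rfl
      · ring
    rw [e1]
    have e2 : ∀ i j, ν i * ν j * A i j ≤ 1 / 2 * (ν i * ν j) -
        (if i = j then 1 / 2 * (ν i * ν j) else 0) := by
      intro i j
      by_cases hij : i = j
      · subst hij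
        rw [hd, if_pos rfl]
        linarith
      · rw [if_neg hij]
        simp only [A]
        have := mul_nonneg (ν0 i) (ν0 j)
        split_ifs <;> linarith
    have e3 := sum_le_sum fun i (_ : i ∈ univ) => sum_le_sum fun j (_ : j ∈ univ) => e2 i j
    have e4 : ∑ i, ∑ j, (1 / 2 * (ν i * ν j) - (if i = j then 1 / 2 * (ν i * ν j) else 0)) =
        1 / 2 * ((n : ℝ) ^ 2 - ∑ i, ν i ^ 2) := by
      simp only [sum_sub_distrib, ← mul_sum, sum_ite_eq, mem_univ, if_true, νs']
      rw [← sum_mul, νs']
      have : ∀ i, ν i * ν i = ν i ^ 2 := fun i => (sq _).symm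
      simp_rw [this]
      ring
    rw [e4] at e3
    linarith
  have hn2 : (n : ℝ) ^ 2 * (1 / t) ≤ (n : ℝ) ^ 2 * ((1 - m * ρ) ^ 2 / (t - m) - m * ρ ^ 2) :=
    mul_le_mul_of_nonneg_left hfin (by positivity)
  have htR : (0 : ℝ) < t := by
    have : 0 < t := by omega
    exact_mod_cast this
  have hend : (n : ℝ) ^ 2 * ((t - 1) / (2 * t)) = 1 / 2 * ((n : ℝ) ^ 2 - (n : ℝ) ^ 2 * (1 / t)) := by
    field_simp
  rw [hend]
  linarith

end Pool.Agent.X178.FD
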