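import Mathlib

/-!
# Fractional t-dimension of the two-layer orders `Q_n^{1,k}`: definitions
-/

namespace Pool.Agent.X178.FD

open Finset Classical

/-- `Q_n^{1,k}`: the subsets of `Fin n` with `1` or `k` elements, ordered by inclusion -/
abbrev Q (n k : ℕ) := {x : Finset (Fin n) // x.card = 1 ∨ x.card = k}

/-- a fractional `t`-realiser of `Q_n^{1,k}`: a nonnegative weight on the monotone total functions
to the chain `Fin t` such that whenever not `x ≥ y` the functions with `f x < f y` have total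
weight at least `1` -/
structure Realiser (n k t : ℕ) (w : (Q n k → Fin t) → ℝ) : Prop where
  nonneg : ∀ f, 0 ≤ w f
  mono : ∀ f, w f ≠ 0 → Monotone f
  cover : ∀ x y : Q n k, ¬ y ≤ x → 1 ≤ ∑ f : Q n k → Fin t, if f x < f y then w f else 0

/-- the fractional `t`-dimension of `Q_n^{1,k}`: the infimum of the total weights of the
fractional `t`-realisers -/
noncomputable def fdim (n k t : ℕ) : ℝ :=
  sInf {W : ℝ | ∃ w : (Q n k → Fin t) → ℝ, Realiser n k t w ∧ ∑ f, w f = W}

/-- `M k m`: the maximum of `∑ j, p_j (p_0 + ⋯ + p_(j-1)) ^ k` over the probability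
distributions on `m + 1` levels, by recursion -/
noncomputable def M (k : ℕ) : ℕ → ℝ
  | 0 => 0
  | m + 1 => ((k : ℝ) / ((k + 1) * (1 - M k m))) ^ k / (k + 1)

/-- AM-GM -/
theorem amgm (k : ℕ) (x y : ℝ) (hx : 0 ≤ x) (hy : 0 ≤ y) :
    x ^ k * y ≤ ((k * x + y) / (k + 1)) ^ (k + 1) := by
  have hk1 : (0 : ℝ) < (k : ℝ) + 1 := by positivity
  have h1 := Real.geom_mean_le_arith_mean2_weighted (w₁ := (k : ℝ) / (k + 1)) (w₂ := 1 / (k + 1))
    (p₁ := x) (p₂ := y) (by positivity) (by positivity) hx hy (by field_simp)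
  have h2 := pow_le_pow_left₀ (by positivity) h1 (k + 1)
  have h3 : (x ^ ((k : ℝ) / (k + 1)) * y ^ (1 / ((k : ℝ) + 1))) ^ (k + 1) = x ^ k * y := by
    rw [mul_pow, ← Real.rpow_natCast (x ^ ((k : ℝ) / (k + 1))), ← Real.rpow_mul hx,
      ← Real.rpow_natCast (y ^ (1 / ((k : ℝ) + 1))), ← Real.rpow_mul hy]
    push_cast
    rw [div_mul_cancel₀ _ hk1.ne', div_mul_cancel₀ _ hk1.ne', Real.rpow_one, Real.rpow_natCast]
  rw [h3] at h2
  refine h2.trans (le_of_eq ?_)
  congr 1
  field_simp

theorem M_bounds (k : ℕ) (hk : 1 ≤ k) (m : ℕ) : 0 ≤ M k m ∧ M k m ≤ 1 / (k + 1) := by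
  have hkR : (1 : ℝ) ≤ k := by exact_mod_cast hk
  induction m with
  | zero => exact ⟨le_rfl, by rw [M]; positivity⟩
  | succ m ih =>
    obtain ⟨h1, h2⟩ := ih
    have h3 : (k : ℝ) ≤ (k + 1) * (1 - M k m) := by
      have h4 := mul_le_mul_of_nonneg_left h2 (by positivity : (0 : ℝ) ≤ (k : ℝ) + 1)
      rw [mul_one_div, div_self (by positivity)] at h4
      linarith
    have h5 : (k : ℝ) / ((k + 1) * (1 - M k m)) ≤ 1 := by
      rw [div_le_one (by linarith)]
      exact h3
    have h6 : (0 : ℝ) ≤ (k : ℝ) / ((k + 1) * (1 - M k m)) := by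
      apply div_nonneg <;> linarith
    rw [M]
    refine ⟨by positivity, ?_⟩
    exact div_le_div_of_nonneg_right (pow_le_one₀ h6 h5) (by positivity)

theorem M_lt_one (k : ℕ) (hk : 1 ≤ k) (m : ℕ) : M k m < 1 := by
  have hkR : (1 : ℝ) ≤ k := by exact_mod_cast hk
  refine lt_of_le_of_lt (M_bounds k hk m).2 ?_
  rw [div_lt_one (by positivity)]
  linarith

theorem M_pos (k : ℕ) (hk : 1 ≤ k) (m : ℕ) : 0 < M k (m + 1) := by
  have hkR : (1 : ℝ) ≤ k := by exact_mod_cast hk
  have h1 := M_lt_one k hk m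
  rw [M]
  have h2 : 0 < 1 - M k m := by linarith
  positivity

/-- the upper bound for all weights -/
theorem levels (k : ℕ) (hk : 1 ≤ k) (p : ℕ → ℝ) (hp : ∀ j, 0 ≤ p j) (m : ℕ) :
    ∑ j ∈ range (m + 1), p j * (∑ i ∈ range j, p i) ^ k ≤
      M k m * (∑ j ∈ range (m + 1), p j) ^ (k + 1) := by
  have hkR : (1 : ℝ) ≤ k := by exact_mod_cast hk
  induction m with
  | zero => simp [M, show k ≠ 0 by omega]
  | succ m ih =>
    rw [sum_range_succ]
    set S := ∑ j ∈ range (m + 1), p j with hS
    set T := ∑ j ∈ range (m + 1 + 1), p j with hT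
    have hTS : T = S + p (m + 1) := sum_range_succ _ _
    have hS0 : 0 ≤ S := sum_nonneg fun j _ => hp j
    have hpm := hp (m + 1)
    have hM0 := (M_bounds k hk m).1
    have hM1 := M_lt_one k hk m
    set c := 1 - M k m with hc
    have hc0 : 0 < c := by linarith
    have hk0 : (0 : ℝ) < k := by linarith
    have hy : 0 ≤ (T - c * S) * (k / c) := by
      apply mul_nonneg _ (by positivity)
      nlinarith
    have h1 := amgm k S ((T - c * S) * (k / c)) hS0 hy
    have h2 : (k : ℝ) * S + (T - c * S) * (k / c) = k * T / c := by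
      field_simp
      ring
    rw [h2] at h1
    have h3 : M k (m + 1) * T ^ (k + 1) = (c / k) * ((k * T / c) / (k + 1)) ^ (k + 1) := by
      rw [M, ← hc]
      have e1 : (k : ℝ) * T / c / (k + 1) = ((k : ℝ) / ((k + 1) * c)) * T := by
        field_simp
      rw [e1, mul_pow, pow_succ ((k : ℝ) / ((k + 1) * c)) k]
      field_simp
    have h4 : S ^ k * (T - c * S) = (c / k) * (S ^ k * ((T - c * S) * (k / c))) := by
      field_simp
    calc _ ≤ M k m * S ^ (k + 1) + p (m + 1) * S ^ k := by linarith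
      _ = S ^ k * (T - c * S) := by
          rw [hTS, hc]
          ring
      _ = (c / k) * (S ^ k * ((T - c * S) * (k / c))) := h4
      _ ≤ (c / k) * ((k * T / c) / (k + 1)) ^ (k + 1) :=
          mul_le_mul_of_nonneg_left h1 (by positivity)
      _ = M k (m + 1) * T ^ (k + 1) := h3.symm

/-- the bound is attained -/
theorem attain (k : ℕ) (hk : 1 ≤ k) (m : ℕ) :
    ∃ p : ℕ → ℝ, (∀ j, 0 ≤ p j) ∧ ∑ j ∈ range (m + 1), p j = 1 ∧
      ∑ j ∈ range (m + 1), p j * (∑ i ∈ range j, p i) ^ k = M k m := by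
  have hkR : (1 : ℝ) ≤ k := by exact_mod_cast hk
  induction m with
  | zero =>
    refine ⟨fun _ => 1, fun _ => zero_le_one, by simp, ?_⟩
    simp [M, show k ≠ 0 by omega]
  | succ m ih =>
    obtain ⟨p, hp, h1, h2⟩ := ih
    have hM0 := (M_bounds k hk m).1
    have hM2 := (M_bounds k hk m).2
    have hM1 := M_lt_one k hk m
    set c := 1 - M k m with hc
    have hc0 : 0 < c := by linarith
    have hk0 : (0 : ℝ) < k := by linarith
    set q := (k : ℝ) / ((k + 1) * c) with hq
    have hq0 : 0 ≤ q := by positivity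
    have hq1 : q ≤ 1 := by
      rw [hq, div_le_one (by positivity)]
      have h4 := mul_le_mul_of_nonneg_left hM2 (by positivity : (0 : ℝ) ≤ (k : ℝ) + 1)
      rw [mul_one_div, div_self (by positivity)] at h4
      rw [hc]
      linarith
    refine ⟨fun j => if j < m + 1 then q * p j else 1 - q, fun j => ?_, ?_, ?_⟩
    · beta_reduce
      by_cases h : j < m + 1
      · rw [if_pos h]; exact mul_nonneg hq0 (hp j)
      · rw [if_neg h]; linarith
    · rw [sum_range_succ, if_neg (lt_irrefl _)]
      have e1 : ∑ j ∈ range (m + 1), (if j < m + 1 then q * p j else 1 - q) = q := by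
        calc _ = ∑ j ∈ range (m + 1), q * p j :=
              sum_congr rfl fun j hj => if_pos (mem_range.1 hj)
          _ = q := by rw [← mul_sum, h1, mul_one]
      rw [e1]
      ring
    · have e2 : ∀ j, j ≤ m + 1 → ∑ i ∈ range j, (if i < m + 1 then q * p i else 1 - q) =
          q * ∑ i ∈ range j, p i := by
        intro j hj
        rw [mul_sum]
        refine sum_congr rfl fun i hi => if_pos ?_
        have := mem_range.1 hi
        omega
      beta_reduce
      rw [sum_range_succ, if_neg (lt_irrefl _), e2 _ le_rfl, h1, mul_one]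
      have e3 : ∑ j ∈ range (m + 1), (if j < m + 1 then q * p j else 1 - q) *
          (∑ i ∈ range j, (if i < m + 1 then q * p i else 1 - q)) ^ k = q ^ (k + 1) * M k m := by
        rw [← h2, mul_sum]
        refine sum_congr rfl fun j hj => ?_
        have := mem_range.1 hj
        rw [if_pos this, e2 j (by omega), mul_pow]
        ring
      rw [e3, M, ← hc, ← hq]
      have e4 : c * q = k / (k + 1) := by
        rw [hq]
        field_simp
      have e5 : M k m = 1 - c := by rw [hc]; ring
      rw [e5, pow_succ]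
      have e6 : q ^ k * q * (1 - c) + (1 - q) * q ^ k = q ^ k * (1 - c * q) := by ring
      rw [e6, e4]
      field_simp
      ring

end Pool.Agent.X178.FD
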