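import Pool.Agent.X178.FD.DegOneLow

/-!
# Posets of maximum degree one
-/

namespace Pool.Agent.X178.FD

open Finset Classical

/-- the comparability graph of the finite poset `P` has maximum degree exactly `Δ` -/
def MaxDeg (P : Type) [PartialOrder P] (Δ : ℕ) : Prop :=
  (∀ x : P, {z : P | z < x ∨ x < z}.ncard ≤ Δ) ∧ ∃ x : P, {z : P | z < x ∨ x < z}.ncard = Δ

/-- the trivial realiser bound below -/
theorem exists_realiser (P : Type) [Fintype P] [PartialOrder P] (t : ℕ) (ht : 2 ≤ t) :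
    ∃ w : (P → Fin t) → ℝ, RealiserP P t w := by
  obtain ⟨m, rfl⟩ : ∃ m, t = m + 1 + 1 := ⟨t - 2, by omega⟩
  obtain ⟨w, hw, -⟩ := upP P (Fintype.card P + 1) m (by omega) (fun x => by
    refine (card_le_univ _).trans (by omega))
  exact ⟨w, hw⟩

/-- `n` disjoint two-element chains -/
structure TwoC (n : ℕ) where
  /-- the number of the chain -/
  idx : Fin n
  /-- the height in the chain -/
  lvl : Fin 2

/-- points as pairs -/
def twoEquiv (n : ℕ) : TwoC n ≃ Fin n × Fin 2 :=
  ⟨fun x => (x.idx, x.lvl), fun x => ⟨x.1, x.2⟩, fun _ => rfl, fun _ => rfl⟩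

noncomputable instance (n : ℕ) : Fintype (TwoC n) := Fintype.ofEquiv _ (twoEquiv n).symm

instance (n : ℕ) : PartialOrder (TwoC n) where
  le := fun x y => x.idx = y.idx ∧ x.lvl ≤ y.lvl
  le_refl := fun _ => ⟨rfl, le_rfl⟩
  le_trans := fun _ _ _ h1 h2 => ⟨h1.1.trans h2.1, h1.2.trans h2.2⟩
  le_antisymm := fun x y h1 h2 => by
    cases x; cases y
    simp only [TwoC.mk.injEq]
    exact ⟨h1.1, le_antisymm h1.2 h2.2⟩

theorem twoC_le {n : ℕ} (x y : TwoC n) : x ≤ y ↔ x.idx = y.idx ∧ x.lvl ≤ y.lvl := Iff.rfl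

theorem twoC_lt {n : ℕ} (x y : TwoC n) : x < y ↔ x.idx = y.idx ∧ x.lvl < y.lvl := by
  rw [lt_iff_le_not_ge, twoC_le, twoC_le]
  constructor
  · rintro ⟨⟨h1, h2⟩, h3⟩
    exact ⟨h1, lt_of_not_ge fun h => h3 ⟨h1.symm, h⟩⟩
  · rintro ⟨h1, h2⟩
    exact ⟨⟨h1, h2.le⟩, fun h => absurd h.2 (not_le.2 h2)⟩

theorem twoC_deg (n : ℕ) (hn : 0 < n) : MaxDeg (TwoC n) 1 := by
  have h : ∀ x : TwoC n, {z : TwoC n | z < x ∨ x < z} = {⟨x.idx, 1 - x.lvl⟩} := by
    intro x
    ext z
    rw [Set.mem_ofPred_eq, Set.mem_singleton_iff, twoC_lt, twoC_lt]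
    obtain ⟨i, a⟩ := x
    obtain ⟨j, b⟩ := z
    simp only [TwoC.mk.injEq]
    constructor
    · rintro (⟨h1, h2⟩ | ⟨h1, h2⟩)
      · refine ⟨h1, ?_⟩
        omega
      · refine ⟨h1.symm, ?_⟩
        omega
    · rintro ⟨h1, h2⟩
      have : b < a ∨ a < b := by omega
      rcases this with h3 | h3
      · exact Or.inl ⟨h1, h3⟩
      · exact Or.inr ⟨h1.symm, h3⟩
  constructor
  · intro x
    rw [h, Set.ncard_singleton]
  · exact ⟨⟨⟨0, hn⟩, 0⟩, by rw [h, Set.ncard_singleton]⟩

/-- the lower bound -/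
theorem lowTwo (t : ℕ) (ht : 2 ≤ t) (ρ : ℝ) (hρ : 0 ≤ ρ)
    (hρe : ((t : ℝ) - 2) * ρ ^ 2 + 2 * ρ = 1 / t) (B : ℝ)
    (hB : ∀ (P : Type) [Fintype P] [PartialOrder P], MaxDeg P 1 → fdimP P t ≤ B) :
    (1 + ρ) * (2 * t / (t - 1)) ≤ B := by
  have htR : (2 : ℝ) ≤ t := by exact_mod_cast ht
  have ht1 : (0 : ℝ) < (t : ℝ) - 1 := by linarith
  have h1 : ∀ n : ℕ, 0 < n → (ρ + (1 - 1 / (n : ℝ))) * (2 * t / (t - 1)) ≤ B := by
    intro n hn
    refine le_trans ?_ (hB (TwoC n) (twoC_deg n hn))
    refine le_csInf ?_ ?_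
    · obtain ⟨w, hw⟩ := exists_realiser (TwoC n) t ht
      exact ⟨_, w, hw, rfl⟩
    · rintro W ⟨w, hw, rfl⟩
      have h2 := lowOne n t ht ρ hρ hρe w hw (fun i => ⟨i, 0⟩) (fun i => ⟨i, 1⟩)
        (fun i => ⟨rfl, by simp⟩) (fun i h => by simp [twoC_le] at h)
        (fun i j hij h => hij h.1.symm)
      have hn0 : (0 : ℝ) < n := by exact_mod_cast hn
      have h3 : ρ * n * n + n * (n - 1) = (n : ℝ) ^ 2 * (ρ + (1 - 1 / (n : ℝ))) := by
        field_simp
      rw [h3] at h2
      have h4 : (∑ f, w f) * ((n : ℝ) ^ 2 * ((t - 1) / (2 * t))) =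
          (n : ℝ) ^ 2 * ((∑ f, w f) * ((t - 1) / (2 * t))) := by ring
      rw [h4] at h2
      have h5 := le_of_mul_le_mul_left h2 (by positivity)
      calc (ρ + (1 - 1 / (n : ℝ))) * (2 * t / (t - 1)) ≤
          ((∑ f, w f) * ((t - 1) / (2 * t))) * (2 * t / (t - 1)) :=
            mul_le_mul_of_nonneg_right h5 (by positivity)
        _ = _ := by field_simp
  have h2 : Filter.Tendsto (fun n : ℕ => (ρ + (1 - 1 / (n : ℝ))) * (2 * (t : ℝ) / (t - 1)))
      Filter.atTop (nhds ((ρ + (1 - 0)) * (2 * (t : ℝ) / (t - 1)))) := by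
    refine Filter.Tendsto.mul_const _ (Filter.Tendsto.const_add _ ?_)
    exact tendsto_const_nhds.sub (tendsto_const_div_atTop_nhds_zero_nat (1 : ℝ))
  have h3 : (ρ + (1 - 0)) * (2 * (t : ℝ) / (t - 1)) = (1 + ρ) * (2 * t / (t - 1)) := by ring
  rw [h3] at h2
  refine le_of_tendsto h2 ?_
  filter_upwards [Filter.eventually_gt_atTop 0] with n hn
  exact h1 n hn

/-- pushforward of weights -/
noncomputable def pw {α β : Type} [Fintype α] (F : α → β) (c : α → ℝ) (f : β) : ℝ :=
  ∑ φ, if F φ = f then c φ else 0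

theorem push {α β : Type} [Fintype α] [Fintype β] (F : α → β) (c : α → ℝ) (C : β → Prop) :
    ∑ f : β, (if C f then pw F c f else 0) =
      ∑ φ, if C (F φ) then c φ else 0 := by
  have e1 : ∀ f : β, (if C f then pw F c f else 0) =
      ∑ φ, if F φ = f then (if C (F φ) then c φ else 0) else 0 := by
    intro f
    unfold pw
    by_cases hC : C f
    · rw [if_pos hC]
      refine sum_congr rfl fun φ _ => ?_
      by_cases hf : F φ = f
      · rw [if_pos hf, if_pos hf, if_pos (hf.symm ▸ hC)]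
      · rw [if_neg hf, if_neg hf]
    · rw [if_neg hC]
      symm
      refine sum_eq_zero fun φ _ => ?_
      by_cases hf : F φ = f
      · rw [if_pos hf, if_neg (hf.symm ▸ hC)]
      · rw [if_neg hf]
  simp_rw [e1]
  rw [sum_comm]
  refine sum_congr rfl fun φ _ => ?_
  simp

theorem pw_nonneg {α β : Type} [Fintype α] (F : α → β) (c : α → ℝ) (hc : ∀ φ, 0 ≤ c φ) (f : β) :
    0 ≤ pw F c f := by
  refine sum_nonneg fun φ _ => ?_
  split_ifs
  · exact hc φ
  · exact le_rfl

theorem pw_zero {α β : Type} [Fintype α] (F : α → β) (c : α → ℝ) (f : β)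
    (h : ∀ φ, F φ ≠ f) : pw F c f = 0 :=
  sum_eq_zero fun φ _ => if_neg (h φ)

/-- the bottom of the component -/
noncomputable def bt {P : Type} [PartialOrder P] (x : P) : P :=
  if h : ∃ z, z < x then choose h else x

theorem bt_le {P : Type} [PartialOrder P] (x : P) : bt x = x ∨ bt x < x := by
  unfold bt
  split_ifs with h
  · exact Or.inr (choose_spec h)
  · exact Or.inl rfl

theorem bt_lt {P : Type} [Fintype P] [PartialOrder P]
    (hD : ∀ x : P, {z : P | z < x ∨ x < z}.ncard ≤ 1) (x y : P) (h : x < y) :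
    bt x = x ∧ bt y = x := by
  have uniq : ∀ x a b : P, (a < x ∨ x < a) → (b < x ∨ x < b) → a = b := by
    intro x a b ha hb
    exact (Set.ncard_le_one (Set.toFinite _)).1 (hD x) a ha b hb
  constructor
  · rcases bt_le x with h1 | h1
    · exact h1
    · have h2 := uniq x (bt x) y (Or.inl h1) (Or.inr h)
      rw [h2] at h1
      exact absurd (h.trans h1) (lt_irrefl _)
  · have h1 : bt y < y := by
      unfold bt
      rw [dif_pos ⟨x, h⟩]
      exact choose_spec (⟨x, h⟩ : ∃ z, z < y)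
    exact uniq y (bt y) x (Or.inl h1) (Or.inl h)

theorem bt_eq {P : Type} [Fintype P] [PartialOrder P]
    (hD : ∀ x : P, {z : P | z < x ∨ x < z}.ncard ≤ 1) (x y : P) (h : ¬ y ≤ x)
    (he : bt x = bt y) : bt x = x ∧ bt y ≠ y := by
  have uniq : ∀ x a b : P, (a < x ∨ x < a) → (b < x ∨ x < b) → a = b := by
    intro x a b ha hb
    exact (Set.ncard_le_one (Set.toFinite _)).1 (hD x) a ha b hb
  have h1 : bt x = x := by
    rcases bt_le x with h1 | h1
    · exact h1
    · exfalso
      rcases bt_le y with h2 | h2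
      · rw [he, h2] at h1
        exact h h1.le
      · rw [← he] at h2
        exact h (le_of_eq (uniq (bt x) y x (Or.inr h2) (Or.inr h1)))
  refine ⟨h1, fun h2 => h ?_⟩
  rw [← h2, ← he, h1]

theorem upTwo (P : Type) [Fintype P] [PartialOrder P]
    (hD : ∀ x : P, {z : P | z < x ∨ x < z}.ncard ≤ 1) : fdimP P 2 ≤ 5 := by
  let F : (P → Fin (1 + 1)) → (P → Fin 2) := fun φ x => φ (bt x)
  let G : P → Fin 2 := fun x => if bt x = x then 0 else 1
  let c : (P → Fin (1 + 1)) → ℝ := fun φ => 4 * ∏ i, (fun _ : ℕ => (1 / 2 : ℝ)) (φ i).val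
  have hc : ∀ φ, 0 ≤ c φ := fun φ => by positivity
  let w : (P → Fin 2) → ℝ := fun f => pw F c f + pw (fun _ : Unit => G) (fun _ => 1) f
  have hmonoF : ∀ φ, Monotone (F φ) := by
    intro φ x y hxy
    rcases hxy.eq_or_lt with h | h
    · rw [h]
    · have := bt_lt hD x y h
      simp only [F]
      rw [this.1, this.2]
  have hmonoG : Monotone G := by
    intro x y hxy
    rcases hxy.eq_or_lt with h | h
    · rw [h]
    · have := bt_lt hD x y h
      simp only [G]
      rw [if_pos this.1]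
      exact Fin.zero_le _
  have h1 : ∑ j ∈ range (1 + 1), (fun _ : ℕ => (1 / 2 : ℝ)) j = 1 := by norm_num
  have hsum : ∀ C : (P → Fin 2) → Prop, ∑ f, (if C f then w f else 0) =
      (∑ φ, if C (F φ) then c φ else 0) + (if C G then 1 else 0) := by
    intro C
    have e1 := push F c C
    have e2 := push (fun _ : Unit => G) (fun _ => (1 : ℝ)) C
    have e3 : ∀ f, (if C f then w f else 0) = (if C f then pw F c f else 0) +
        (if C f then pw (fun _ : Unit => G) (fun _ => 1) f else 0) := by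
      intro f
      by_cases hC : C f
      · rw [if_pos hC, if_pos hC, if_pos hC]
      · rw [if_neg hC, if_neg hC, if_neg hC, add_zero]
    rw [sum_congr rfl fun f _ => e3 f, sum_add_distrib, e1, e2]
    simp
  have hprob : ∀ x y : P, bt x ≠ bt y →
      (1 : ℝ) ≤ ∑ φ, if F φ x < F φ y then c φ else 0 := by
    intro x y hne
    have e1 := probP 1 (fun _ : ℕ => (1 / 2 : ℝ)) h1 {bt x} (bt y)
      (fun h => hne (mem_singleton.1 h).symm)
    have e2 : ∑ φ, (if F φ x < F φ y then c φ else 0) = 4 * ∑ φ : P → Fin (1 + 1),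
        (if ∀ i ∈ ({bt x} : Finset P), φ i < φ (bt y) then
          ∏ i, (fun _ : ℕ => (1 / 2 : ℝ)) (φ i).val else 0) := by
      rw [mul_sum]
      refine sum_congr rfl fun φ _ => ?_
      by_cases h : F φ x < F φ y
      · rw [if_pos h, if_pos]
        intro i hi
        rw [mem_singleton.1 hi]
        exact h
      · rw [if_neg h, if_neg, mul_zero]
        intro h2
        exact h (h2 _ (mem_singleton_self _))
    rw [e2, e1]
    norm_num [sum_range_succ]
  have hreal : RealiserP P 2 w := by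
    refine ⟨?_, ?_, ?_⟩
    · intro f
      exact add_nonneg (pw_nonneg F c hc f) (pw_nonneg _ _ (fun _ => zero_le_one) f)
    · intro f hf
      by_contra hm
      apply hf
      have e1 : pw F c f = 0 := pw_zero F c f fun φ h => hm (h ▸ hmonoF φ)
      have e2 : pw (fun _ : Unit => G) (fun _ => (1 : ℝ)) f = 0 :=
        pw_zero _ _ f fun φ h => hm (h ▸ hmonoG)
      simp only [w]
      rw [e1, e2, add_zero]
    · intro x y hxy
      have e0 := hsum (fun f => f x < f y)
      have e1 : (1 : ℝ) ≤ (∑ φ, if F φ x < F φ y then c φ else 0) +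
          (if G x < G y then 1 else 0) := by
        by_cases hne : bt x = bt y
        · obtain ⟨h2, h3⟩ := bt_eq hD x y hxy hne
          have h4 : G x < G y := by
            simp only [G]
            rw [if_pos h2, if_neg h3]
            exact Fin.zero_lt_one
          rw [if_pos h4]
          have : 0 ≤ ∑ φ, (if F φ x < F φ y then c φ else 0) := by
            refine sum_nonneg fun φ _ => ?_
            split_ifs
            · exact hc φ
            · exact le_rfl
          linarith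
        · have h2 := hprob x y hne
          have : (0 : ℝ) ≤ (if G x < G y then 1 else 0) := by
            split_ifs <;> norm_num
          linarith
      refine e1.trans (le_of_eq ?_)
      refine Eq.trans ?_ (e0.symm.trans ?_)
      · congr 1
        · refine sum_congr rfl fun _ _ => ?_
          congr
        · congr
      · refine sum_congr rfl fun _ _ => ?_
        congr
  have htot : ∑ f, w f = 5 := by
    have e0 := hsum (fun _ => True)
    simp only [if_true] at e0
    rw [e0]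
    have e5 := prod_univ_sum (fun _ : P => (univ : Finset (Fin (1 + 1))))
      (fun _ l => (fun _ : ℕ => (1 / 2 : ℝ)) l.val)
    rw [Fintype.piFinset_univ] at e5
    simp only [c]
    rw [← mul_sum, ← e5]
    norm_num
  refine csInf_le ⟨0, ?_⟩ ⟨w, hreal, htot⟩
  rintro W ⟨w, hw, rfl⟩
  exact sum_nonneg fun f _ => hw.nonneg f

end Pool.Agent.X178.FD
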