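import Pool.Agent.X178.FD.Poset
import Pool.Agent.X178.FD.Clique

/-!
# Lower bound for disjoint unions of two-element chains
-/

namespace Pool.Agent.X178.FD

open Finset Classical

theorem lowOne {P : Type} [Fintype P] [PartialOrder P] (n t : ℕ) (ht : 2 ≤ t) (ρ : ℝ)
    (hρ : 0 ≤ ρ) (hρe : ((t : ℝ) - 2) * ρ ^ 2 + 2 * ρ = 1 / t) (w : (P → Fin t) → ℝ)
    (hw : RealiserP P t w) (lo hi : Fin n → P) (hlohi : ∀ i, lo i ≤ hi i)
    (hnle : ∀ i, ¬ hi i ≤ lo i) (hnle2 : ∀ i j, i ≠ j → ¬ lo j ≤ hi i) :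
    ρ * n * n + n * (n - 1) ≤ (∑ f, w f) * ((n : ℝ) ^ 2 * ((t - 1) / (2 * t))) := by
  have h1 : ρ * n * n ≤ ∑ f, w f * (ρ * n * ((univ.filter (fun i => f (lo i) < f (hi i))).card : ℝ)) := by
    calc ρ * n * n = ρ * n * ∑ _i : Fin n, (1 : ℝ) := by simp
      _ ≤ ρ * n * ∑ i : Fin n, ∑ f, (if f (lo i) < f (hi i) then w f else 0) := by
          refine mul_le_mul_of_nonneg_left ?_ (by positivity)
          exact sum_le_sum fun i _ => hw.cover _ _ (hnle i)
      _ = ρ * n * ∑ f, ∑ i : Fin n, (if f (lo i) < f (hi i) then w f else 0) := by rw [sum_comm]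
      _ = _ := by
          rw [mul_sum]
          refine sum_congr rfl fun f _ => ?_
          rw [← sum_filter, sum_const, nsmul_eq_mul]
          ring
  have h2 : (n : ℝ) * (n - 1) ≤ ∑ f, w f *
      ((univ.filter (fun q : Fin n × Fin n => f (hi q.1) < f (lo q.2))).card : ℝ) := by
    calc (n : ℝ) * (n - 1) = ((univ : Finset (Fin n)).offDiag.card : ℝ) := by
          rw [offDiag_card, card_univ, Fintype.card_fin, Nat.cast_sub (Nat.le_mul_self n)]
          push_cast
          ring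
      _ = ∑ _q ∈ (univ : Finset (Fin n)).offDiag, (1 : ℝ) := by
          rw [sum_const, nsmul_eq_mul, mul_one]
      _ ≤ ∑ q ∈ (univ : Finset (Fin n)).offDiag, ∑ f, (if f (hi q.1) < f (lo q.2) then w f else 0) := by
          refine sum_le_sum fun q hq => hw.cover _ _ (hnle2 _ _ ?_)
          exact (mem_offDiag.1 hq).2.2
      _ = ∑ f, ∑ q ∈ (univ : Finset (Fin n)).offDiag, (if f (hi q.1) < f (lo q.2) then w f else 0) :=
          sum_comm
      _ ≤ _ := by
          refine sum_le_sum fun f _ => ?_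
          rw [← sum_filter, sum_const, nsmul_eq_mul, mul_comm]
          refine mul_le_mul_of_nonneg_left ?_ (hw.nonneg f)
          refine Nat.cast_le.2 (card_le_card fun q hq => ?_)
          exact mem_filter.2 ⟨mem_univ _, (mem_filter.1 hq).2⟩
  have h3 : ∀ f, w f * (ρ * n * ((univ.filter (fun i => f (lo i) < f (hi i))).card : ℝ)) +
      w f * ((univ.filter (fun q : Fin n × Fin n => f (hi q.1) < f (lo q.2))).card : ℝ) ≤
      w f * ((n : ℝ) ^ 2 * ((t - 1) / (2 * t))) := by
    intro f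
    by_cases h0 : w f = 0
    · rw [h0]; simp
    · have h4 := keyineq n t ht ρ hρ hρe (fun i => f (lo i)) (fun i => f (hi i))
        (fun i => hw.mono f h0 (hlohi i))
      have h5 := mul_le_mul_of_nonneg_left h4 (hw.nonneg f)
      linarith
  have h4 := sum_le_sum fun f (_ : f ∈ univ) => h3 f
  rw [sum_add_distrib, ← sum_mul] at h4
  linarith

end Pool.Agent.X178.FD
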