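import Pool.Agent.X178.FD.Poset

/-!
# The local version for antichains
-/

namespace Pool.Agent.X178.FD

open Finset Classical

/-- a fractional local `t`-realiser of the finite poset `P`: weights on the monotone partial
functions to the chain `Fin t` -/
structure RealiserL (P : Type) [Fintype P] [PartialOrder P] (t : ℕ)
    (w : (P → Option (Fin t)) → ℝ) : Prop where
  nonneg : ∀ f, 0 ≤ w f
  mono : ∀ f, w f ≠ 0 → ∀ (x y : P) (a b : Fin t), x ≤ y → f x = some a → f y = some b → a ≤ b
  cover : ∀ x y : P, ¬ y ≤ x → 1 ≤ ∑ f : P → Option (Fin t),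
    if (∃ a b, f x = some a ∧ f y = some b ∧ a < b) then w f else 0

/-- the fractional local `t`-dimension of the finite poset `P` -/
noncomputable def fldimP (P : Type) [Fintype P] [PartialOrder P] (t : ℕ) : ℝ :=
  sInf {r : ℝ | ∃ w : (P → Option (Fin t)) → ℝ, RealiserL P t w ∧
    ∀ x : P, ∑ f : P → Option (Fin t), (if (f x).isSome = true then w f else 0) ≤ r}

/-- a fractional realiser is a fractional local realiser -/
theorem toLocal (P : Type) [Fintype P] [PartialOrder P] (t : ℕ) (w : (P → Fin t) → ℝ)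
    (hw : RealiserP P t w) : ∃ v : (P → Option (Fin t)) → ℝ, RealiserL P t v ∧
      ∀ x : P, ∑ f : P → Option (Fin t), (if (f x).isSome = true then v f else 0) ≤
        ∑ f, w f := by
  let E : (P → Fin t) → (P → Option (Fin t)) := fun f x => some (f x)
  have key : ∀ C : (P → Option (Fin t)) → Prop,
      ∑ g : P → Option (Fin t), (if C g then (∑ f, if E f = g then w f else 0) else 0) =
        ∑ f, if C (E f) then w f else 0 := by
    intro C
    have e1 : ∀ g : P → Option (Fin t),
        (if C g then (∑ f, if E f = g then w f else 0) else 0) =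
        ∑ f, if E f = g then (if C (E f) then w f else 0) else 0 := by
      intro g
      by_cases hC : C g
      · rw [if_pos hC]
        refine sum_congr rfl fun f _ => ?_
        by_cases hf : E f = g
        · rw [if_pos hf, if_pos hf, if_pos (hf.symm ▸ hC)]
        · rw [if_neg hf, if_neg hf]
      · rw [if_neg hC]
        symm
        refine sum_eq_zero fun f _ => ?_
        by_cases hf : E f = g
        · rw [if_pos hf, if_neg (hf.symm ▸ hC)]
        · rw [if_neg hf]
    simp_rw [e1]
    rw [sum_comm]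
    refine sum_congr rfl fun f _ => ?_
    simp
  refine ⟨fun g => ∑ f, if E f = g then w f else 0, ⟨?_, ?_, ?_⟩, ?_⟩
  · intro g
    exact sum_nonneg fun f _ => by split_ifs <;> simp [hw.nonneg f]
  · intro g hg x y a b hxy ha hb
    obtain ⟨f, -, hf⟩ := exists_ne_zero_of_sum_ne_zero hg
    by_cases h3 : E f = g
    · rw [if_pos h3] at hf
      have h4 := hw.mono f hf hxy
      rw [← h3] at ha hb
      rw [← Option.some.inj ha, ← Option.some.inj hb]
      exact h4
    · rw [if_neg h3] at hf
      exact absurd rfl hf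
  · intro x y hxy
    have e0 := key (fun g => ∃ a b, g x = some a ∧ g y = some b ∧ a < b)
    have h1 := hw.cover x y hxy
    refine le_trans h1 (le_of_eq ?_)
    refine Eq.trans ?_ (e0.symm.trans ?_)
    · refine sum_congr rfl fun f _ => ?_
      have h5 : (∃ a b, E f x = some a ∧ E f y = some b ∧ a < b) ↔ f x < f y := by
        constructor
        · rintro ⟨a, b, ha, hb, hab⟩
          rwa [← Option.some.inj ha, ← Option.some.inj hb] at hab
        · intro h
          exact ⟨f x, f y, rfl, rfl, h⟩
      by_cases h6 : f x < f y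
      · rw [if_pos h6, if_pos (h5.2 h6)]
      · rw [if_neg h6, if_neg (fun h => h6 (h5.1 h))]
    · refine sum_congr rfl fun _ _ => ?_
      congr
  · intro x
    have e0 := key (fun g => (g x).isSome = true)
    refine le_of_eq ?_
    refine Eq.trans ?_ (e0.trans ?_)
    · refine sum_congr rfl fun _ _ => ?_
      congr
    · refine sum_congr rfl fun f _ => ?_
      rw [if_pos]
      rfl

/-- for one partial function: at most `(1 - 1/t) s ^ 2 / 2` increasing pairs -/
theorem pairs {P : Type} [Fintype P] (t : ℕ) (ht : 1 ≤ t) (f : P → Option (Fin t)) :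
    2 * t * ((univ.filter (fun q : P × P => ∃ a b, f q.1 = some a ∧ f q.2 = some b ∧ a < b)).card
      : ℝ) ≤ ((t : ℝ) - 1) * ((univ.filter (fun x => (f x).isSome = true)).card : ℝ) ^ 2 := by
  set D := univ.filter (fun x => (f x).isSome = true) with hD
  set A := univ.filter (fun q : P × P => ∃ a b, f q.1 = some a ∧ f q.2 = some b ∧ a < b) with hA
  set B := univ.filter (fun q : P × P => ∃ a b, f q.1 = some a ∧ f q.2 = some b ∧ b < a) with hB
  let L : Fin t → Finset P := fun a => univ.filter (fun x => f x = some a)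
  have hAB : B.card = A.card := by
    refine card_bij (fun q _ => (q.2, q.1)) ?_ ?_ ?_
    · intro q hq
      obtain ⟨a, b, h1, h2, h3⟩ := (mem_filter.1 hq).2
      exact mem_filter.2 ⟨mem_univ _, b, a, h2, h1, h3⟩
    · rintro ⟨a, b⟩ _ ⟨c, d⟩ _ h
      have := Prod.ext_iff.1 h
      exact Prod.ext this.2 this.1
    · rintro ⟨a, b⟩ hq
      obtain ⟨c, d, h1, h2, h3⟩ := (mem_filter.1 hq).2
      exact ⟨(b, a), mem_filter.2 ⟨mem_univ _, d, c, h2, h1, h3⟩, rfl⟩
  have hdis : Disjoint A B := by
    rw [disjoint_left]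
    intro q hq1 hq2
    obtain ⟨a, b, h1, h2, h3⟩ := (mem_filter.1 hq1).2
    obtain ⟨c, d, h4, h5, h6⟩ := (mem_filter.1 hq2).2
    rw [h1] at h4
    rw [h2] at h5
    rw [← Option.some.inj h4, ← Option.some.inj h5] at h6
    exact lt_asymm h3 h6
  have hE : (D ×ˢ D) = (A ∪ B) ∪ univ.biUnion (fun a => L a ×ˢ L a) := by
    ext ⟨x, y⟩
    simp only [mem_product, mem_union, mem_biUnion, mem_univ, true_and, mem_filter, hD, hA, hB, L]
    constructor
    · rintro ⟨h1, h2⟩
      obtain ⟨a, ha⟩ := Option.isSome_iff_exists.1 h1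
      obtain ⟨b, hb⟩ := Option.isSome_iff_exists.1 h2
      rcases lt_trichotomy a b with h3 | h3 | h3
      · exact Or.inl (Or.inl ⟨a, b, ha, hb, h3⟩)
      · exact Or.inr ⟨a, ha, by rw [hb, h3]⟩
      · exact Or.inl (Or.inr ⟨a, b, ha, hb, h3⟩)
    · rintro ((⟨a, b, h1, h2, -⟩ | ⟨a, b, h1, h2, -⟩) | ⟨a, h1, h2⟩)
      · exact ⟨by rw [h1]; rfl, by rw [h2]; rfl⟩
      · exact ⟨by rw [h1]; rfl, by rw [h2]; rfl⟩
      · exact ⟨by rw [h1]; rfl, by rw [h2]; rfl⟩
  have hdis2 : Disjoint (A ∪ B) (univ.biUnion (fun a => L a ×ˢ L a)) := by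
    rw [disjoint_left]
    rintro ⟨x, y⟩ h1 h2
    obtain ⟨a, -, h3⟩ := mem_biUnion.1 h2
    have h4 := mem_product.1 h3
    have hx := (mem_filter.1 h4.1).2
    have hy := (mem_filter.1 h4.2).2
    rcases mem_union.1 h1 with h5 | h5
    · obtain ⟨c, d, h6, h7, h8⟩ := (mem_filter.1 h5).2
      simp only at h6 h7 hx hy
      rw [hx] at h6
      rw [hy] at h7
      rw [← Option.some.inj h6, ← Option.some.inj h7] at h8
      exact lt_irrefl _ h8
    · obtain ⟨c, d, h6, h7, h8⟩ := (mem_filter.1 h5).2
      simp only at h6 h7 hx hy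
      rw [hx] at h6
      rw [hy] at h7
      rw [← Option.some.inj h6, ← Option.some.inj h7] at h8
      exact lt_irrefl _ h8
  have hcard : D.card * D.card = A.card + A.card + ∑ a, (L a).card * (L a).card := by
    rw [← card_product, hE, card_union_of_disjoint hdis2, card_union_of_disjoint hdis, hAB,
      card_biUnion]
    · simp only [card_product]
    · intro a _ b _ hab
      rw [Function.onFun, disjoint_left]
      rintro ⟨x, y⟩ h1 h2
      have h3 := (mem_filter.1 (mem_product.1 h1).1).2
      have h4 := (mem_filter.1 (mem_product.1 h2).1).2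
      rw [h3] at h4
      exact hab (Option.some.inj h4)
  have hsum : ∑ a, ((L a).card : ℝ) = D.card := by
    have h1 : ∑ a, (L a).card = D.card := by
      rw [← card_biUnion]
      · congr 1
        ext x
        simp only [mem_biUnion, mem_univ, true_and, mem_filter, hD, L]
        exact Option.isSome_iff_exists.symm
      · intro b _ b' _ hbb
        rw [Function.onFun, disjoint_filter]
        intro x _ h1 h2
        rw [h1] at h2
        exact hbb (Option.some.inj h2)
    exact_mod_cast h1
  have hcs := sq_sum_le_card_mul_sum_sq (s := (univ : Finset (Fin t)))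
    (f := fun a => ((L a).card : ℝ))
  rw [hsum, card_univ, Fintype.card_fin] at hcs
  have h5 : ((D.card : ℝ)) * D.card =
      A.card + A.card + ∑ a, ((L a).card : ℝ) * (L a).card := by
    exact_mod_cast hcard
  have h6 : ∑ a, ((L a).card : ℝ) ^ 2 = ∑ a, ((L a).card : ℝ) * (L a).card :=
    sum_congr rfl fun a _ => sq _
  rw [h6] at hcs
  have htR : (1 : ℝ) ≤ t := by exact_mod_cast ht
  nlinarith

/-- the lower bound for antichains, local version -/
theorem lowL {P : Type} [Fintype P] [PartialOrder P] (hP : ∀ x y : P, x ≤ y → x = y) (t : ℕ)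
    (ht : 2 ≤ t) (w : (P → Option (Fin t)) → ℝ) (hw : RealiserL P t w) (r : ℝ)
    (hr : ∀ x : P, ∑ f : P → Option (Fin t), (if (f x).isSome = true then w f else 0) ≤ r) :
    2 * t * ((Fintype.card P : ℝ) * (Fintype.card P - 1)) ≤
      ((t : ℝ) - 1) * (Fintype.card P) ^ 2 * r := by
  have htR : (2 : ℝ) ≤ t := by exact_mod_cast ht
  set N := Fintype.card P with hN
  let s : (P → Option (Fin t)) → ℝ := fun f =>
    ((univ.filter (fun x => (f x).isSome = true)).card : ℝ)
  let A : (P → Option (Fin t)) → ℝ := fun f =>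
    ((univ.filter (fun q : P × P => ∃ a b, f q.1 = some a ∧ f q.2 = some b ∧ a < b)).card : ℝ)
  have hs : ∀ f, s f ≤ N := by
    intro f
    have h1 : (univ.filter (fun x => (f x).isSome = true)).card ≤ (univ : Finset P).card :=
      card_filter_le _ _
    rw [card_univ] at h1
    exact Nat.cast_le.2 h1
  have h1 : ((univ.filter (fun q : P × P => q.1 ≠ q.2)).card : ℝ) ≤ ∑ f, w f * A f := by
    calc ((univ.filter (fun q : P × P => q.1 ≠ q.2)).card : ℝ)
        = ∑ _q ∈ univ.filter (fun q : P × P => q.1 ≠ q.2), (1 : ℝ) := by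
          rw [sum_const, nsmul_eq_mul, mul_one]
      _ ≤ ∑ q ∈ univ.filter (fun q : P × P => q.1 ≠ q.2), ∑ f : P → Option (Fin t),
          (if (∃ a b, f q.1 = some a ∧ f q.2 = some b ∧ a < b) then w f else 0) := by
          refine sum_le_sum fun q hq => hw.cover q.1 q.2 fun h => ?_
          exact (mem_filter.1 hq).2 (hP _ _ h).symm
      _ = ∑ f : P → Option (Fin t), ∑ q ∈ univ.filter (fun q : P × P => q.1 ≠ q.2),
          (if (∃ a b, f q.1 = some a ∧ f q.2 = some b ∧ a < b) then w f else 0) := sum_comm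
      _ ≤ ∑ f, w f * A f := by
          refine sum_le_sum fun f _ => ?_
          rw [← sum_filter, sum_const, nsmul_eq_mul, mul_comm]
          refine mul_le_mul_of_nonneg_left ?_ (hw.nonneg f)
          have h2 : ((univ.filter (fun q : P × P => q.1 ≠ q.2)).filter (fun q =>
              ∃ a b, f q.1 = some a ∧ f q.2 = some b ∧ a < b)).card ≤
              (univ.filter (fun q : P × P =>
                ∃ a b, f q.1 = some a ∧ f q.2 = some b ∧ a < b)).card := by
            refine card_le_card fun q hq => ?_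
            exact mem_filter.2 ⟨mem_univ _, (mem_filter.1 hq).2⟩
          exact Nat.cast_le.2 h2
  have h2 : ((univ.filter (fun q : P × P => q.1 ≠ q.2)).card : ℝ) = N * (N - 1) := by
    have h3 : (univ.filter (fun q : P × P => q.1 ≠ q.2)) = (univ : Finset P).offDiag := by
      ext q
      simp
    rw [h3, offDiag_card, card_univ, ← hN, Nat.cast_sub (Nat.le_mul_self N)]
    push_cast
    ring
  have h3 : ∑ f, w f * s f ≤ N * r := by
    calc ∑ f, w f * s f = ∑ f : P → Option (Fin t), ∑ x : P,
          (if (f x).isSome = true then w f else 0) := by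
          refine sum_congr rfl fun f _ => ?_
          rw [← sum_filter, sum_const, nsmul_eq_mul, mul_comm]
      _ = ∑ x : P, ∑ f : P → Option (Fin t), (if (f x).isSome = true then w f else 0) :=
          sum_comm
      _ ≤ ∑ _x : P, r := sum_le_sum fun x _ => hr x
      _ = N * r := by rw [sum_const, card_univ, nsmul_eq_mul]
  have h4 : ∀ f, 2 * t * (w f * A f) ≤ ((t : ℝ) - 1) * N * (w f * s f) := by
    intro f
    have h5 := pairs t (by omega) f
    have h6 : (0 : ℝ) ≤ s f := Nat.cast_nonneg _
    have h7 : ((t : ℝ) - 1) * s f ^ 2 ≤ ((t : ℝ) - 1) * N * s f := by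
      have h8 := mul_le_mul_of_nonneg_left (hs f) h6
      have h9 : s f ^ 2 ≤ N * s f := by nlinarith
      nlinarith
    have h10 : 2 * t * A f ≤ ((t : ℝ) - 1) * N * s f := h5.trans h7
    have h11 := mul_le_mul_of_nonneg_left h10 (hw.nonneg f)
    linarith
  have h12 := sum_le_sum fun f (_ : f ∈ univ) => h4 f
  rw [← mul_sum, ← mul_sum] at h12
  rw [h2] at h1
  have h13 : 2 * (t : ℝ) * (N * (N - 1)) ≤ 2 * t * ∑ f, w f * A f :=
    mul_le_mul_of_nonneg_left h1 (by positivity)
  have h14 : ((t : ℝ) - 1) * N * ∑ f, w f * s f ≤ ((t : ℝ) - 1) * N * (N * r) :=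
    mul_le_mul_of_nonneg_left h3 (mul_nonneg (by linarith) (Nat.cast_nonneg _))
  calc _ ≤ _ := h13
    _ ≤ _ := h12
    _ ≤ _ := h14
    _ = _ := by ring

theorem fldimP_mem_nonneg (P : Type) [Fintype P] [PartialOrder P] [Nonempty P] (t : ℕ) (r : ℝ)
    (h : ∃ w : (P → Option (Fin t)) → ℝ, RealiserL P t w ∧
      ∀ x : P, ∑ f : P → Option (Fin t), (if (f x).isSome = true then w f else 0) ≤ r) :
    0 ≤ r := by
  obtain ⟨w, hw, h⟩ := h
  obtain ⟨x⟩ := (inferInstance : Nonempty P)
  refine le_trans (sum_nonneg fun f _ => ?_) (h x)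
  split_ifs
  · exact hw.nonneg f
  · exact le_rfl

theorem fldimP_le (P : Type) [Fintype P] [PartialOrder P] [Nonempty P] (t : ℕ)
    (w : (P → Fin t) → ℝ) (hw : RealiserP P t w) : fldimP P t ≤ ∑ f, w f := by
  obtain ⟨v, hv, h⟩ := toLocal P t w hw
  exact csInf_le ⟨0, fun r hr => fldimP_mem_nonneg P t r hr⟩ ⟨v, hv, h⟩

theorem le_fldimP (P : Type) [Fintype P] [PartialOrder P] [Nonempty P]
    (hP : ∀ x y : P, x ≤ y → x = y) (m : ℕ) :
    (((Fintype.card P : ℝ) - 1) / Fintype.card P) * (2 * (m + 2) / (m + 1)) ≤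
      fldimP P (m + 1 + 1) := by
  refine le_csInf ?_ ?_
  · obtain ⟨w, hw, -⟩ := upP P 1 m le_rfl (fun x => by
      rw [Finset.card_le_one]
      intro a ha b hb
      simp only [Finset.mem_filter, Finset.mem_univ, true_and] at ha hb
      rw [hP _ _ ha, hP _ _ hb])
    obtain ⟨v, hv, h⟩ := toLocal P _ w hw
    exact ⟨_, v, hv, h⟩
  · rintro r ⟨w, hw, hr⟩
    have h1 := lowL hP (m + 1 + 1) (by omega) w hw r hr
    have hN : (0 : ℝ) < Fintype.card P := by exact_mod_cast Fintype.card_pos
    have hm : (0 : ℝ) < (m : ℝ) + 1 := by positivity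
    rw [div_mul_div_comm, div_le_iff₀ (by positivity)]
    push_cast at h1
    have h2 : (Fintype.card P : ℝ) * (((Fintype.card P : ℝ) - 1) * (2 * (m + 2))) ≤
        Fintype.card P * (r * (Fintype.card P * (m + 1))) := by
      nlinarith
    exact le_of_mul_le_mul_left h2 hN

/-- the antichain on `n` points -/
structure Anti (n : ℕ) where
  /-- the underlying number -/
  val : Fin n

/-- points of the antichain are numbers -/
def antiEquiv (n : ℕ) : Anti n ≃ Fin n := ⟨fun x => x.val, fun x => ⟨x⟩, fun _ => rfl, fun _ => rfl⟩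

noncomputable instance (n : ℕ) : Fintype (Anti n) := Fintype.ofEquiv _ (antiEquiv n).symm

instance (n : ℕ) : PartialOrder (Anti n) where
  le := Eq
  lt := fun _ _ => False
  lt_iff_le_not_ge := fun a b => ⟨fun h => h.elim, fun h => h.2 (Eq.symm h.1)⟩
  le_refl := fun _ => rfl
  le_trans := fun _ _ _ h1 h2 => Eq.trans h1 h2
  le_antisymm := fun _ _ h _ => h

/-- the supremum of the fractional local `t`-dimension over all nonempty antichains -/
theorem lubL (m : ℕ) :
    IsLUB {r : ℝ | ∃ (P : Type) (_ : Fintype P) (_ : PartialOrder P), Nonempty P ∧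
      (∀ x y : P, x ≤ y → x = y) ∧ r = fldimP P (m + 1 + 1)} (2 * (m + 2) / (m + 1)) := by
  have hM1 : M 1 (m + 1) = ((m : ℝ) + 1) / (2 * (m + 2)) := by
    have h : ∀ m : ℕ, M 1 m = (m : ℝ) / (2 * (m + 1)) := by
      intro m
      induction m with
      | zero => simp [M]
      | succ m ih =>
        rw [M, ih]
        have h1 : (1 : ℝ) - (m : ℝ) / (2 * (m + 1)) = ((m : ℝ) + 2) / (2 * (m + 1)) := by
          field_simp
          ring
        rw [h1, pow_one]
        push_cast
        field_simp
        ring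
    rw [h]
    push_cast
    ring
  constructor
  · rintro r ⟨P, _, _, _, hP, rfl⟩
    obtain ⟨w, hw, h⟩ := upP P 1 m le_rfl (fun x => by
      rw [Finset.card_le_one]
      intro a ha b hb
      simp only [Finset.mem_filter, Finset.mem_univ, true_and] at ha hb
      rw [hP _ _ ha, hP _ _ hb])
    have h1 := fldimP_le P _ w hw
    rw [h, hM1, one_div_div] at h1
    exact h1
  · intro b hb
    have h1 : ∀ n : ℕ, 0 < n → (((n : ℝ) - 1) / n) * (2 * (m + 2) / (m + 1)) ≤ b := by
      intro n hn
      have : Nonempty (Anti n) := ⟨⟨⟨0, hn⟩⟩⟩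
      have h2 : ∀ x y : Anti n, x ≤ y → x = y := fun x y h => h
      have h3 := le_fldimP (Anti n) h2 m
      rw [Fintype.card_congr (antiEquiv n), Fintype.card_fin] at h3
      exact h3.trans (hb ⟨Anti n, inferInstance, inferInstance, inferInstance, h2, rfl⟩)
    have h2 : Filter.Tendsto (fun n : ℕ => (((n : ℝ) - 1) / n) * (2 * ((m : ℝ) + 2) / (m + 1)))
        Filter.atTop (nhds (1 * (2 * ((m : ℝ) + 2) / (m + 1)))) := by
      refine Filter.Tendsto.mul_const _ ?_
      have h3 : Filter.Tendsto (fun n : ℕ => 1 - (1 : ℝ) / n) Filter.atTop (nhds (1 - 0)) :=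
        tendsto_const_nhds.sub (tendsto_const_div_atTop_nhds_zero_nat (1 : ℝ))
      rw [sub_zero] at h3
      refine h3.congr' ?_
      filter_upwards [Filter.eventually_gt_atTop 0] with n hn
      have hn0 : (n : ℝ) ≠ 0 := by exact_mod_cast hn.ne'
      rw [sub_div, div_self hn0]
    rw [one_mul] at h2
    refine le_of_tendsto h2 ?_
    filter_upwards [Filter.eventually_gt_atTop 0] with n hn
    exact h1 n hn

end Pool.Agent.X178.FD
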