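import Pool.Agent.X178.FD.Defs

/-!
# Finite posets in which every element has at most `k - 1` elements below it
-/

namespace Pool.Agent.X178.FD

open Finset Classical

/-- a fractional `t`-realiser of the finite poset `P` -/
structure RealiserP (P : Type) [Fintype P] [PartialOrder P] (t : ℕ) (w : (P → Fin t) → ℝ) :
    Prop where
  nonneg : ∀ f, 0 ≤ w f
  mono : ∀ f, w f ≠ 0 → Monotone f
  cover : ∀ x y : P, ¬ y ≤ x → 1 ≤ ∑ f : P → Fin t, if f x < f y then w f else 0

/-- the fractional `t`-dimension of the finite poset `P` -/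
noncomputable def fdimP (P : Type) [Fintype P] [PartialOrder P] (t : ℕ) : ℝ :=
  sInf {W : ℝ | ∃ w : (P → Fin t) → ℝ, RealiserP P t w ∧ ∑ f, w f = W}

/-- probability computation for independent levels -/
theorem probP {P : Type} [Fintype P] (m : ℕ) (p : ℕ → ℝ) (h1 : ∑ j ∈ range (m + 1), p j = 1)
    (x : Finset P) (b : P) (hb : b ∉ x) :
    ∑ φ : P → Fin (m + 1), (if ∀ i ∈ x, φ i < φ b then ∏ i, p (φ i).val else 0) =
      ∑ j ∈ range (m + 1), p j * (∑ i ∈ range j, p i) ^ x.card := by
  let h : Fin (m + 1) → P → Fin (m + 1) → ℝ := fun j i l =>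
    p l.val * (if i = b then (if l = j then 1 else 0) else
      if i ∈ x then (if l < j then 1 else 0) else 1)
  have e1 : ∀ φ : P → Fin (m + 1),
      (if ∀ i ∈ x, φ i < φ b then ∏ i, p (φ i).val else 0) = ∑ j, ∏ i, h j i (φ i) := by
    intro φ
    have e2 : ∀ j, ∏ i, h j i (φ i) =
        if φ b = j ∧ ∀ i ∈ x, φ i < j then ∏ i, p (φ i).val else 0 := by
      intro j
      by_cases hc : φ b = j ∧ ∀ i ∈ x, φ i < j
      · rw [if_pos hc]
        refine prod_congr rfl fun i _ => ?_
        simp only [h]
        by_cases hi : i = b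
        · subst hi
          rw [if_pos rfl, if_pos hc.1, mul_one]
        · rw [if_neg hi]
          by_cases hx : i ∈ x
          · rw [if_pos hx, if_pos (hc.2 i hx), mul_one]
          · rw [if_neg hx, mul_one]
      · rw [if_neg hc]
        by_cases hbj : φ b = j
        · have h3 : ¬ ∀ i ∈ x, φ i < j := fun h => hc ⟨hbj, h⟩
          push Not at h3
          obtain ⟨i, hi, hij⟩ := h3
          refine prod_eq_zero (mem_univ i) ?_
          simp only [h]
          rw [if_neg (fun e : i = b => hb (e ▸ hi)), if_pos hi, if_neg (not_lt.2 hij), mul_zero]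
        · refine prod_eq_zero (mem_univ b) ?_
          simp [h, hbj]
    rw [sum_congr rfl fun j _ => e2 j, sum_eq_single (φ b)]
    · by_cases hc : ∀ i ∈ x, φ i < φ b
      · rw [if_pos hc, if_pos ⟨rfl, hc⟩]
      · rw [if_neg hc, if_neg (fun h => hc h.2)]
    · intro j _ hj
      rw [if_neg (fun h => hj h.1.symm)]
    · intro h
      exact absurd (mem_univ _) h
  rw [sum_congr rfl fun φ _ => e1 φ, sum_comm, ← Fin.sum_univ_eq_sum_range
    (fun j => p j * (∑ i ∈ range j, p i) ^ x.card)]
  refine sum_congr rfl fun j _ => ?_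
  have e3 : ∑ φ : P → Fin (m + 1), ∏ i, h j i (φ i) = ∏ i, ∑ l, h j i l := by
    rw [prod_univ_sum]
    rw [Fintype.piFinset_univ]
  rw [e3]
  have hp1 : ∑ l : Fin (m + 1), p l.val = 1 := by
    rw [Fin.sum_univ_eq_sum_range (fun l => p l)]
    exact h1
  have hpj : ∑ l : Fin (m + 1), p l.val * (if l < j then 1 else 0) =
      ∑ i ∈ range j.val, p i := by
    have e5 : ∑ l : Fin (m + 1), p l.val * (if l < j then 1 else 0) =
        ∑ l : Fin (m + 1), (if l.val < j.val then p l.val else 0) := by
      refine sum_congr rfl fun l _ => ?_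
      by_cases hl : l < j
      · rw [if_pos hl, if_pos (Fin.lt_def.1 hl), mul_one]
      · rw [if_neg hl, if_neg (fun h => hl (Fin.lt_def.2 h)), mul_zero]
    rw [e5, Fin.sum_univ_eq_sum_range (fun l => if l < j.val then p l else 0), ← sum_filter]
    refine sum_congr ?_ fun _ _ => rfl
    ext l
    simp only [mem_filter, mem_range]
    have := j.2
    omega
  have e4 : ∀ i, ∑ l, h j i l = if i = b then p j.val else
      if i ∈ x then ∑ i ∈ range j.val, p i else 1 := by
    intro i
    simp only [h]
    by_cases hi : i = b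
    · simp only [if_pos hi]
      rw [sum_eq_single j]
      · rw [if_pos rfl, mul_one]
      · intro l _ hl
        rw [if_neg hl, mul_zero]
      · intro h
        exact absurd (mem_univ _) h
    · simp only [if_neg hi]
      by_cases hx : i ∈ x
      · simp only [if_pos hx]
        exact hpj
      · simp only [if_neg hx, mul_one]
        exact hp1
  rw [prod_congr rfl fun i _ => e4 i, ← mul_prod_erase univ _ (mem_univ b), if_pos rfl]
  congr 1
  calc _ = ∏ i ∈ univ.erase b, (if i ∈ x then ∑ i ∈ range j.val, p i else 1) :=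
        prod_congr rfl fun i hi => if_neg (mem_erase.1 hi).1
    _ = ∏ i ∈ (univ.erase b).filter (fun i => i ∈ x), ∑ i ∈ range j.val, p i := by
        rw [prod_filter]
    _ = _ := by
        rw [prod_const]
        congr 2
        ext i
        simp only [mem_filter, mem_erase, mem_univ, and_true]
        constructor
        · rintro ⟨-, h⟩; exact h
        · intro h; exact ⟨fun h' => hb (h' ▸ h), h⟩

/-- the function on the poset given by levels of the points -/
noncomputable def FP {P : Type} [Fintype P] [PartialOrder P] {m : ℕ} (φ : P → Fin (m + 1)) :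
    P → Fin (m + 1) := fun x => (univ.filter (fun z => z ≤ x)).sup φ

theorem FP_mono {P : Type} [Fintype P] [PartialOrder P] {m : ℕ} (φ : P → Fin (m + 1)) :
    Monotone (FP φ) := by
  intro x y h
  refine sup_mono fun z hz => ?_
  exact mem_filter.2 ⟨mem_univ _, (mem_filter.1 hz).2.trans h⟩

theorem upP (P : Type) [Fintype P] [PartialOrder P] (k m : ℕ) (hk : 1 ≤ k)
    (hP : ∀ x : P, (univ.filter (fun z => z ≤ x)).card ≤ k) :
    ∃ w : (P → Fin (m + 1 + 1)) → ℝ, RealiserP P (m + 1 + 1) w ∧
      ∑ f, w f = 1 / M k (m + 1) := by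
  obtain ⟨p, hp, h1, h2⟩ := attain k hk (m + 1)
  have hM := M_pos k hk m
  let c : (P → Fin (m + 1 + 1)) → ℝ := fun φ => 1 / M k (m + 1) * ∏ i, p (φ i).val
  have hc : ∀ φ, 0 ≤ c φ := fun φ => mul_nonneg (by positivity) (prod_nonneg fun i _ => hp _)
  have key : ∀ C : (P → Fin (m + 1 + 1)) → Prop,
      ∑ f : P → Fin (m + 1 + 1), (if C f then (∑ φ, if FP φ = f then c φ else 0) else 0) =
        ∑ φ, if C (FP φ) then c φ else 0 := by
    intro C
    have e1 : ∀ f : P → Fin (m + 1 + 1),
        (if C f then (∑ φ, if FP φ = f then c φ else 0) else 0) =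
        ∑ φ, if FP φ = f then (if C (FP φ) then c φ else 0) else 0 := by
      intro f
      by_cases hC : C f
      · rw [if_pos hC]
        refine sum_congr rfl fun φ _ => ?_
        by_cases hf : FP φ = f
        · rw [if_pos hf, if_pos hf, if_pos (hf.symm ▸ hC)]
        · rw [if_neg hf, if_neg hf]
      · rw [if_neg hC]
        symm
        refine sum_eq_zero fun φ _ => ?_
        by_cases hf : FP φ = f
        · rw [if_pos hf, if_neg (hf.symm ▸ hC)]
        · rw [if_neg hf]
    simp_rw [e1]
    rw [sum_comm]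
    refine sum_congr rfl fun φ _ => ?_
    simp
  refine ⟨fun f => ∑ φ, if FP φ = f then c φ else 0, ⟨?_, ?_, ?_⟩, ?_⟩
  · intro f
    exact sum_nonneg fun φ _ => by split_ifs <;> simp [hc φ]
  · intro f hf
    by_contra hm
    apply hf
    refine sum_eq_zero fun φ _ => ?_
    by_cases h3 : FP φ = f
    · exact absurd (h3 ▸ FP_mono φ) hm
    · rw [if_neg h3]
  · intro x y hxy
    have hbx : y ∉ univ.filter (fun z => z ≤ x) := fun h => hxy (mem_filter.1 h).2
    have e0 := key (fun f => f x < f y)
    have e1 : (1 : ℝ) ≤ ∑ φ, (if FP φ x < FP φ y then c φ else 0) := by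
      have e2 : ∑ φ : P → Fin (m + 1 + 1),
          (if ∀ i ∈ univ.filter (fun z => z ≤ x), φ i < φ y then c φ else 0) ≤
          ∑ φ, (if FP φ x < FP φ y then c φ else 0) := by
        refine sum_le_sum fun φ _ => ?_
        by_cases h4 : ∀ i ∈ univ.filter (fun z => z ≤ x), φ i < φ y
        · have h5 : FP φ x < FP φ y := by
            have h6 : (⊥ : Fin (m + 1 + 1)) < φ y :=
              lt_of_le_of_lt bot_le (h4 x (mem_filter.2 ⟨mem_univ _, le_rfl⟩))
            exact lt_of_lt_of_le ((Finset.sup_lt_iff h6).2 h4)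
              (le_sup (f := φ) (mem_filter.2 ⟨mem_univ _, le_rfl⟩))
          rw [if_pos h4, if_pos h5]
        · rw [if_neg h4]
          split_ifs
          · exact hc φ
          · exact le_rfl
      refine le_trans ?_ e2
      have e3 : ∑ φ : P → Fin (m + 1 + 1),
          (if ∀ i ∈ univ.filter (fun z => z ≤ x), φ i < φ y then c φ else 0) =
          1 / M k (m + 1) * ∑ φ : P → Fin (m + 1 + 1),
            (if ∀ i ∈ univ.filter (fun z => z ≤ x), φ i < φ y then
              ∏ i, p (φ i).val else 0) := by
        rw [mul_sum]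
        refine sum_congr rfl fun φ _ => ?_
        split_ifs
        · rfl
        · rw [mul_zero]
      rw [e3, probP (m + 1) p h1 _ y hbx]
      have e4 : M k (m + 1) ≤ ∑ j ∈ range (m + 1 + 1),
          p j * (∑ i ∈ range j, p i) ^ (univ.filter (fun z => z ≤ x)).card := by
        rw [← h2]
        refine sum_le_sum fun j hj => mul_le_mul_of_nonneg_left ?_ (hp j)
        refine pow_le_pow_of_le_one (sum_nonneg fun i _ => hp i) ?_ (hP x)
        rw [← h1]
        refine sum_le_sum_of_subset_of_nonneg ?_ fun i _ _ => hp i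
        intro i hi
        have := mem_range.1 hi
        have := mem_range.1 hj
        exact mem_range.2 (by omega)
      calc (1 : ℝ) = 1 / M k (m + 1) * M k (m + 1) := by field_simp
        _ ≤ _ := mul_le_mul_of_nonneg_left e4 (by positivity)
    refine e1.trans (le_of_eq ?_)
    refine Eq.trans ?_ (e0.symm.trans ?_)
    · refine sum_congr rfl fun _ _ => ?_
      congr
    · refine sum_congr rfl fun _ _ => ?_
      congr
  · have e0 := key (fun _ => True)
    simp only [if_true] at e0
    rw [e0, ← mul_sum]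
    have e5 := prod_univ_sum (fun _ : P => (univ : Finset (Fin (m + 1 + 1))))
      (fun _ l => p l.val)
    rw [Fintype.piFinset_univ] at e5
    rw [← e5, Fin.sum_univ_eq_sum_range (fun l => p l), h1, prod_const_one, mul_one]

theorem fdimP_le (P : Type) [Fintype P] [PartialOrder P] (k m : ℕ) (hk : 1 ≤ k)
    (hP : ∀ x : P, (univ.filter (fun z => z ≤ x)).card ≤ k) :
    fdimP P (m + 1 + 1) ≤ 1 / M k (m + 1) := by
  refine csInf_le ⟨0, ?_⟩ (upP P k m hk hP)
  rintro W ⟨w, hw, rfl⟩
  exact sum_nonneg fun f _ => hw.nonneg f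

end Pool.Agent.X178.FD
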